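import Pool.Agent.Helper89.EX.Defs
import Pool.Agent.Helper57.EX.WTBT

set_option autoImplicit false

namespace EX

open Finset SimpleGraph Filter Topology

open scoped Classical

noncomputable section

namespace TW

/-- (1) embedding of a graph of treewidth `≤ w` into a rich family of cliques -/
theorem tw_embed {U V : Type} [Fintype U] [DecidableEq V] (G K' : SimpleGraph U) (o : U → ℕ)
    (ho : Function.Injective o) (hGK : G ≤ K')
    (hch : ∀ v u u', K'.Adj u v → K'.Adj u' v → o u < o v → o u' < o v → u ≠ u' → K'.Adj u u')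
    (w : ℕ) (hdeg : ∀ v, (univ.filter fun u => K'.Adj u v ∧ o u < o v).card ≤ w)
    (K : SimpleGraph V) (HH : Finset (Finset V)) (hne : HH.Nonempty)
    (hcl : ∀ E ∈ HH, K.IsNClique (w + 1) E)
    (hrich : ∀ E ∈ HH, ∀ v ∈ E, ∃ W : Finset V, Fintype.card U ≤ W.card ∧
      ∀ x ∈ W, x ∉ E.erase v ∧ insert x (E.erase v) ∈ HH) : G ⊑ K := by
  obtain ⟨E00, hE00⟩ := hne
  have hw0 : E00.Nonempty := by
    rw [← Finset.card_pos, (hcl E00 hE00).card_eq]
    omega
  obtain ⟨z0, hz0⟩ := hw0
  have claim : ∀ m : ℕ, ∃ (φ : U → V) (ℰ : U → Finset V),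
      (∀ u v, o u < m → o v < m → φ u = φ v → u = v) ∧
      ∀ v, o v < m → ℰ v ∈ HH ∧ φ v ∈ ℰ v ∧ ∀ u, K'.Adj u v → o u < o v → φ u ∈ ℰ v := by
    intro m
    induction m with
    | zero => exact ⟨fun _ => z0, fun _ => E00, fun u v h => absurd h (by omega),
        fun v h => absurd h (by omega)⟩
    | succ m ih =>
      obtain ⟨φ, ℰ, hinj, hprop⟩ := ih
      by_cases hv : ∃ v, o v = m
      · obtain ⟨v, hv⟩ := hv
        have hlt : ∀ u, u ≠ v → o u < m + 1 → o u < m := by
          intro u hu h
          have : o u ≠ m := fun h' => hu (ho (h'.trans hv.symm))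
          omega
        -- the set of earlier neighbours
        obtain ⟨S, hS⟩ : ∃ S, S = univ.filter fun u => K'.Adj u v ∧ o u < o v := ⟨_, rfl⟩
        have hSmem : ∀ u, u ∈ S ↔ K'.Adj u v ∧ o u < o v := by
          intro u
          rw [hS]
          simp
        have hSc : S.card ≤ w := by rw [hS]; exact hdeg v
        have hE0 : ∃ E0 ∈ HH, ∀ u ∈ S, φ u ∈ E0 := by
          rcases S.eq_empty_or_nonempty with h | h
          · exact ⟨E00, hE00, by simp [h]⟩
          · obtain ⟨u0, hu0, hmax⟩ := S.exists_max_image o h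
            have h1 := (hSmem u0).1 hu0
            obtain ⟨h2, h3, h4⟩ := hprop u0 (by omega)
            refine ⟨ℰ u0, h2, fun u hu => ?_⟩
            by_cases huu : u = u0
            · rw [huu]; exact h3
            · have h5 := (hSmem u).1 hu
              refine h4 u (hch v u u0 h5.1 h1.1 h5.2 h1.2 huu) ?_
              have h6 := hmax u hu
              have h7 : o u ≠ o u0 := fun h' => huu (ho h')
              omega
        obtain ⟨E0, hE0H, hE0S⟩ := hE0
        have hx : ∃ x ∈ E0, x ∉ S.image φ := by
          by_contra hcon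
          push Not at hcon
          have h1 : E0.card ≤ (S.image φ).card := Finset.card_le_card hcon
          rw [(hcl E0 hE0H).card_eq] at h1
          have h2 := Finset.card_image_le (s := S) (f := φ)
          omega
        obtain ⟨x, hxE, hxS⟩ := hx
        obtain ⟨W, hWc, hW⟩ := hrich E0 hE0H x hxE
        have hwW : ∃ y ∈ W, y ∉ (univ.filter fun u => o u < m).image φ := by
          by_contra hcon
          push Not at hcon
          have h1 : W.card ≤ ((univ.filter fun u => o u < m).image φ).card :=
            Finset.card_le_card hcon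
          have h2 := Finset.card_image_le (s := univ.filter fun u => o u < m) (f := φ)
          have h3 : (univ.filter fun u => o u < m).card < Fintype.card U := by
            rw [← Finset.card_univ]
            refine Finset.card_lt_card ?_
            rw [Finset.filter_ssubset]
            exact ⟨v, Finset.mem_univ _, by omega⟩
          omega
        obtain ⟨y, hyW, hyn⟩ := hwW
        have hyn' : ∀ u, o u < m → φ u ≠ y := by
          intro u hu h
          exact hyn (Finset.mem_image.2 ⟨u, by simp [hu], h⟩)
        have hov : ∀ u, o u < m → u ≠ v := fun u hu h => by rw [h, hv] at hu; omega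
        refine ⟨Function.update φ v y, Function.update ℰ v (insert y (E0.erase x)), ?_, ?_⟩
        · intro a b ha hb hab
          by_cases hav : a = v
          · by_cases hbv : b = v
            · rw [hav, hbv]
            · exfalso
              rw [hav, Function.update_self, Function.update_of_ne hbv] at hab
              exact hyn' b (hlt b hbv hb) hab.symm
          · by_cases hbv : b = v
            · exfalso
              rw [hbv, Function.update_self, Function.update_of_ne hav] at hab
              exact hyn' a (hlt a hav ha) hab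
            · rw [Function.update_of_ne hav, Function.update_of_ne hbv] at hab
              exact hinj a b (hlt a hav ha) (hlt b hbv hb) hab
        · intro a ha
          by_cases hav : a = v
          · rw [hav, Function.update_self, Function.update_self]
            refine ⟨(hW y hyW).2, Finset.mem_insert_self _ _, fun u huv huo => ?_⟩
            have huS : u ∈ S := (hSmem u).2 ⟨huv, huo⟩
            have hune : u ≠ v := huv.ne
            rw [Function.update_of_ne hune]
            refine Finset.mem_insert_of_mem (Finset.mem_erase.2 ⟨?_, hE0S u huS⟩)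
            intro h
            exact hxS (Finset.mem_image.2 ⟨u, huS, h⟩)
          · rw [Function.update_of_ne hav, Function.update_of_ne hav]
            have ham := hlt a hav ha
            obtain ⟨h1, h2, h3⟩ := hprop a ham
            refine ⟨h1, h2, fun u hua huo => ?_⟩
            have hune : u ≠ v := hov u (by omega)
            rw [Function.update_of_ne hune]
            exact h3 u hua huo
      · have hlt : ∀ u, o u < m + 1 → o u < m := by
          intro u h
          have : o u ≠ m := fun h' => hv ⟨u, h'⟩
          omega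
        exact ⟨φ, ℰ, fun a b ha hb => hinj a b (hlt a ha) (hlt b hb),
          fun a ha => hprop a (hlt a ha)⟩
  obtain ⟨φ, ℰ, hinj, hprop⟩ := claim (univ.sup o + 1)
  have hall : ∀ u, o u < univ.sup o + 1 := fun u =>
    Nat.lt_succ_of_le (Finset.le_sup (f := o) (Finset.mem_univ u))
  have hφ : Function.Injective φ := fun a b h => hinj a b (hall a) (hall b) h
  have hadj : ∀ a b, o a < o b → G.Adj a b → K.Adj (φ a) (φ b) := by
    intro a b hab h
    obtain ⟨h1, h2, h3⟩ := hprop b (hall b)
    exact (hcl _ h1).isClique (h3 a (hGK h) hab) h2 (fun he => h.ne (hφ he))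
  refine ⟨⟨⟨φ, ?_⟩, hφ⟩⟩
  intro a b h
  rcases lt_trichotomy (o a) (o b) with h1 | h1 | h1
  · exact hadj a b h1 h
  · exact absurd (ho h1) h.ne
  · exact (hadj b a h1 h.symm).symm

/-- (2) peeling -/
theorem peel {V : Type} [DecidableEq V] (D : ℕ) (N : ℕ) : ∀ (HH : Finset (Finset V)), HH.card = N →
    (∀ H' ⊆ HH, H'.Nonempty → ∃ E ∈ H', ∃ v ∈ E,
      (H'.filter fun F => E.erase v ⊆ F).card ≤ D) →
    HH.card ≤ D * (HH.biUnion fun E => E.image fun v => E.erase v).card := by
  induction N using Nat.strong_induction_on with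
  | _ N ih =>
    intro HH hN hpoor
    rcases HH.eq_empty_or_nonempty with h | h
    · simp [h]
    · obtain ⟨E, hE, v, hv, hc⟩ := hpoor HH (Finset.Subset.refl _) h
      let H' := HH \ (HH.filter fun F => E.erase v ⊆ F)
      have hsplit : H'.card + (HH.filter fun F => E.erase v ⊆ F).card = HH.card :=
        Finset.card_sdiff_add_card_eq_card (Finset.filter_subset _ _)
      have hEmem : E ∈ HH.filter fun F => E.erase v ⊆ F :=
        Finset.mem_filter.2 ⟨hE, Finset.erase_subset _ _⟩
      have hpos : 0 < (HH.filter fun F => E.erase v ⊆ F).card := Finset.card_pos.2 ⟨E, hEmem⟩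
      have hH' : H' ⊆ HH := Finset.sdiff_subset
      have h1 := ih H'.card (by omega) H' rfl (fun H'' hH'' hne =>
        hpoor H'' (hH''.trans hH') hne)
      have hS : E.erase v ∈ HH.biUnion fun E => E.image fun v => E.erase v :=
        Finset.mem_biUnion.2 ⟨E, hE, Finset.mem_image.2 ⟨v, hv, rfl⟩⟩
      have hSn : E.erase v ∉ H'.biUnion fun E => E.image fun v => E.erase v := by
        intro hmem
        obtain ⟨F, hF, hF'⟩ := Finset.mem_biUnion.1 hmem
        obtain ⟨x, hx, hxe⟩ := Finset.mem_image.1 hF'
        refine (Finset.mem_sdiff.1 hF).2 (Finset.mem_filter.2 ⟨hH' hF, ?_⟩)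
        rw [← hxe]
        exact Finset.erase_subset _ _
      have hsub : (H'.biUnion fun E => E.image fun v => E.erase v) ⊆
          (HH.biUnion fun E => E.image fun v => E.erase v).erase (E.erase v) := by
        intro F hF
        rw [Finset.mem_erase]
        exact ⟨fun he => hSn (he ▸ hF), Finset.biUnion_subset_biUnion_of_subset_left _ hH' hF⟩
      have h2 := Finset.card_le_card hsub
      rw [Finset.card_erase_of_mem hS] at h2
      have h3 : 0 < (HH.biUnion fun E => E.image fun v => E.erase v).card :=
        Finset.card_pos.2 ⟨_, hS⟩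
      have h4 : H'.card ≤ D * ((HH.biUnion fun E => E.image fun v => E.erase v).card - 1) :=
        h1.trans (Nat.mul_le_mul_left _ h2)
      have h5 : D * ((HH.biUnion fun E => E.image fun v => E.erase v).card - 1) + D =
          D * (HH.biUnion fun E => E.image fun v => E.erase v).card := by
        obtain ⟨c, hc⟩ : ∃ c, (HH.biUnion fun E => E.image fun v => E.erase v).card = c + 1 :=
          ⟨_, (Nat.succ_pred_eq_of_pos h3).symm⟩
        rw [hc]
        simp only [Nat.add_sub_cancel]
        ring
      omega

/-- (1)+(2): the number of `(w+1)`-cliques is at most `|U|` times the number of `w`-cliques -/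
theorem few_cliques {U V : Type} [Fintype U] [Fintype V] [DecidableEq V] (G : SimpleGraph U)
    (w : ℕ) (hG : TreewidthLE G w) (K : SimpleGraph V) [DecidableRel K.Adj] (hfree : G.Free K) :
    (K.cliqueFinset (w + 1)).card ≤ Fintype.card U * (K.cliqueFinset w).card := by
  obtain ⟨K', o, ho, hGK, hch, hdeg⟩ := hG
  have hpeel := peel (Fintype.card U) _ (K.cliqueFinset (w + 1)) rfl ?_
  · refine hpeel.trans (Nat.mul_le_mul_left _ (Finset.card_le_card ?_))
    intro F hF
    obtain ⟨E, hE, hF'⟩ := Finset.mem_biUnion.1 hF
    obtain ⟨v, hv, rfl⟩ := Finset.mem_image.1 hF'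
    rw [SimpleGraph.mem_cliqueFinset_iff] at hE ⊢
    refine ⟨hE.isClique.subset (by
      intro x hx
      exact Finset.erase_subset _ _ hx), ?_⟩
    rw [Finset.card_erase_of_mem hv, hE.card_eq]
    rfl
  · intro H' hH' hne
    by_contra hcon
    push Not at hcon
    apply hfree
    refine tw_embed G K' o ho hGK hch w hdeg K H' hne
      (fun E hE => (SimpleGraph.mem_cliqueFinset_iff).1 (hH' hE)) ?_
    intro E hE v hv
    have hc := hcon E hE v hv
    refine ⟨univ.filter fun x => x ∉ E.erase v ∧ insert x (E.erase v) ∈ H', ?_, ?_⟩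
    · have hsub : (H'.filter fun F => E.erase v ⊆ F) ⊆
          (univ.filter fun x => x ∉ E.erase v ∧ insert x (E.erase v) ∈ H').image
            fun x => insert x (E.erase v) := by
        intro F hF
        obtain ⟨h1, h2⟩ := Finset.mem_filter.1 hF
        have hEc := ((SimpleGraph.mem_cliqueFinset_iff).1 (hH' hE)).card_eq
        have hFc := ((SimpleGraph.mem_cliqueFinset_iff).1 (hH' h1)).card_eq
        have h3 : (E.erase v).card + 1 = F.card := by
          rw [Finset.card_erase_of_mem hv, hEc, hFc]
          rfl
        obtain ⟨a, ha, hae⟩ := Finset.exists_eq_insert_iff.2 ⟨h2, h3⟩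
        refine Finset.mem_image.2 ⟨a, ?_, hae⟩
        rw [Finset.mem_filter]
        exact ⟨Finset.mem_univ _, ha, hae ▸ h1⟩
      have h4 := (Finset.card_le_card hsub).trans Finset.card_image_le
      omega
    · intro x hx
      exact (Finset.mem_filter.1 hx).2

/-- (3) a box of `w`-cliques contains every `w`-colourable graph -/
theorem box_contains {U V : Type} [Fintype U] [DecidableEq V] (G : SimpleGraph U) (w : ℕ)
    (hcol : G.Colorable w) (K : SimpleGraph V) (Y : Fin w → Finset V)
    (hY : ∀ l, (Y l).card = Fintype.card U)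
    (hK : ∀ x, Box Y x → K.IsNClique w (univ.image x)) : G ⊑ K := by
  obtain ⟨c⟩ := hcol
  have hadj : Nonempty U → ∀ l l', l ≠ l' → ∀ y ∈ Y l, ∀ y' ∈ Y l', K.Adj y y' := by
    intro hU l l' hll y hy y' hy'
    have hne : ∀ j, ∃ z, z ∈ Y j := by
      intro j
      have : 0 < (Y j).card := by rw [hY j]; exact Fintype.card_pos
      exact Finset.card_pos.1 this
    choose z hz using hne
    let x : Fin w → V := Function.update (Function.update z l y) l' y'
    have hxl' : x l' = y' := Function.update_self _ _ _
    have hxl : x l = y := by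
      simp only [x]
      rw [Function.update_of_ne hll, Function.update_self]
    have hx : Box Y x := by
      intro j
      by_cases h1 : j = l'
      · rw [h1, hxl']; exact hy'
      · by_cases h2 : j = l
        · rw [h2, hxl]; exact hy
        · simp only [x]
          rw [Function.update_of_ne h1, Function.update_of_ne h2]
          exact hz j
    have hcl := hK x hx
    have hinj : Function.Injective x := by
      have h1 : (univ.image x).card = (univ : Finset (Fin w)).card := by
        rw [hcl.card_eq, Finset.card_univ, Fintype.card_fin]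
      have h2 := Finset.card_image_iff.1 h1
      intro a b hab
      exact h2 (by simp) (by simp) hab
    refine hcl.isClique (x := y) (y := y') ?_ ?_ ?_
    · rw [← hxl]; exact_mod_cast Finset.mem_image_of_mem x (Finset.mem_univ l)
    · rw [← hxl']; exact_mod_cast Finset.mem_image_of_mem x (Finset.mem_univ l')
    · rw [← hxl, ← hxl']
      exact fun h => hll (hinj h)
  have hequiv : ∀ l, Nonempty (U ≃ Y l) := by
    intro l
    refine Fintype.card_eq.1 ?_
    rw [Fintype.card_coe, hY l]
  let e : ∀ l, U ≃ Y l := fun l => (hequiv l).some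
  let φ : U → V := fun u => (e (c u) u : Y (c u))
  have hφm : ∀ u, φ u ∈ Y (c u) := fun u => (e (c u) u).2
  have hφadj : ∀ a b, G.Adj a b → K.Adj (φ a) (φ b) := by
    intro a b h
    exact hadj ⟨a⟩ (c a) (c b) (c.valid h) _ (hφm a) _ (hφm b)
  have hφinj : Function.Injective φ := by
    intro a b hab
    by_cases hc : c a = c b
    · have h1 : ∀ l, c a = l → c b = l → a = b := by
        intro l hl hl'
        have h2 : ((e l a : Y l) : V) = (e l b : Y l) := by
          have h3 : φ a = (e l a : Y l) := by simp only [φ]; rw [hl]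
          have h4 : φ b = (e l b : Y l) := by simp only [φ]; rw [hl']
          rw [← h3, ← h4, hab]
        exact (e l).injective (Subtype.ext h2)
      exact h1 (c a) rfl hc.symm
    · exfalso
      have := hadj ⟨a⟩ (c a) (c b) hc _ (hφm a) _ (hφm b)
      rw [hab] at this
      exact this.ne rfl
  exact ⟨⟨⟨φ, fun {a b} h => hφadj a b h⟩, hφinj⟩⟩

end TW

open TW in
theorem exK_small_of_tw_of
    (box_exists : ∀ (k T : ℕ) (η : ℝ), 0 < η → ∃ n0 : ℕ, ∀ n ≥ n0,
      ∀ S : Finset (Fin k → Fin n), η * (n : ℝ) ^ k ≤ S.card →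
      ∃ Y : Fin k → Finset (Fin n), (∀ l, (Y l).card = T) ∧ ∀ x, Box Y x → x ∈ S)
    {U : Type} [Fintype U] (r : ℕ) (hr : 2 ≤ r) (G : SimpleGraph U)
    (hG : TreewidthLE G (r - 1)) (hcol : G.Colorable (r - 1)) :
    Tendsto (fun n : ℕ => (exK n r G : ℝ) / (n : ℝ) ^ (r - 1)) atTop (𝓝 0) := by
  obtain ⟨w, rfl⟩ : ∃ w, r = w + 1 := ⟨r - 1, by omega⟩
  simp only [Nat.add_sub_cancel] at hG hcol ⊢
  -- key estimate
  have key : ∀ δ : ℝ, 0 < δ → ∃ n0 : ℕ, ∀ n ≥ n0, (exK n (w + 1) G : ℝ) ≤ δ * (n : ℝ) ^ w := by
    intro δ hδ
    obtain ⟨n0, hn0⟩ := box_exists w (Fintype.card U) (δ / (Fintype.card U + 1)) (by positivity)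
    refine ⟨n0, fun n hn => ?_⟩
    have hbound : ∀ K : SimpleGraph (Fin n), G.Free K →
        ((K.cliqueFinset (w + 1)).card : ℝ) ≤ δ * (n : ℝ) ^ w := by
      intro K hfree
      by_contra hcon
      push Not at hcon
      have h1 := few_cliques G w hG K hfree
      have h1' : ((K.cliqueFinset (w + 1)).card : ℝ) ≤
          (Fintype.card U + 1 : ℝ) * (K.cliqueFinset w).card := by
        have : ((K.cliqueFinset (w + 1)).card : ℝ) ≤
          (Fintype.card U : ℝ) * (K.cliqueFinset w).card := by exact_mod_cast h1
        have h0 : (0 : ℝ) ≤ (K.cliqueFinset w).card := Nat.cast_nonneg _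
        linarith
      have h2 : δ / (Fintype.card U + 1) * (n : ℝ) ^ w ≤ (K.cliqueFinset w).card := by
        rw [div_mul_eq_mul_div, div_le_iff₀ (by positivity)]
        linarith
      -- ordered cliques
      obtain ⟨S, hS⟩ : ∃ S : Finset (Fin w → Fin n), S = univ.filter fun x =>
        K.IsNClique w (univ.image x) := ⟨_, rfl⟩
      have hSc : (K.cliqueFinset w).card ≤ S.card := by
        have hsub : K.cliqueFinset w ⊆ S.image fun x => univ.image x := by
          intro E hE
          rw [SimpleGraph.mem_cliqueFinset_iff] at hE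
          refine Finset.mem_image.2 ⟨E.orderEmbOfFin hE.card_eq, ?_, ?_⟩
          · rw [hS, Finset.mem_filter]
            refine ⟨Finset.mem_univ _, ?_⟩
            rw [Finset.image_orderEmbOfFin_univ]
            exact hE
          · rw [Finset.image_orderEmbOfFin_univ]
        exact (Finset.card_le_card hsub).trans Finset.card_image_le
      have hSc' : ((K.cliqueFinset w).card : ℝ) ≤ (S.card : ℝ) := Nat.cast_le.2 hSc
      obtain ⟨Y, hYc, hY⟩ := hn0 n hn S (h2.trans hSc')
      refine hfree (box_contains G w hcol K Y hYc fun x hx => ?_)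
      have := hY x hx
      rw [hS, Finset.mem_filter] at this
      exact this.2
    have hnn : (0 : ℝ) ≤ δ * (n : ℝ) ^ w := by positivity
    have h3 : exK n (w + 1) G ≤ ⌊δ * (n : ℝ) ^ w⌋₊ := by
      unfold exK
      refine csSup_le' ?_
      rintro m ⟨K, hK, rfl⟩
      exact Nat.le_floor (hbound K hK)
    calc (exK n (w + 1) G : ℝ) ≤ (⌊δ * (n : ℝ) ^ w⌋₊ : ℝ) := by exact_mod_cast h3
      _ ≤ _ := Nat.floor_le hnn
  rw [Metric.tendsto_atTop]
  intro ε hε
  obtain ⟨n0, hn0⟩ := key (ε / 2) (by positivity)
  refine ⟨max n0 1, fun n hn => ?_⟩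
  have h1 := hn0 n ((le_max_left _ _).trans hn)
  have hn1 : 1 ≤ n := (le_max_right _ _).trans hn
  have hpos : (0 : ℝ) < (n : ℝ) ^ w := by
    have : (0 : ℝ) < n := by exact_mod_cast hn1
    positivity
  rw [Real.dist_eq, sub_zero, abs_of_nonneg (by positivity), div_lt_iff₀ hpos]
  nlinarith

theorem exK_small_of_tw {U : Type} [Fintype U] (r : ℕ) (hr : 2 ≤ r) (G : SimpleGraph U)
    (hG : TreewidthLE G (r - 1)) (hcol : G.Colorable (r - 1)) :
    Tendsto (fun n : ℕ => (exK n r G : ℝ) / (n : ℝ) ^ (r - 1)) atTop (𝓝 0) :=
  exK_small_of_tw_of box_exists r hr G hG hcol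

end

end EX
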