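import Pool.Agent.Helper89.EX.Defs

set_option autoImplicit false

namespace EX

open Finset SimpleGraph

open scoped Classical

noncomputable section

namespace CRBR

theorem one_var (t : ℕ) {V C : Type} (g : V → C) (Y : Finset V) (hY : t * t ≤ Y.card) :
    ∃ Z ⊆ Y, Z.card = t ∧ ((∃ γ, ∀ y ∈ Z, g y = γ) ∨ Set.InjOn g Z) := by
  rcases Nat.eq_zero_or_pos t with h0 | h0
  · subst h0
    exact ⟨∅, by simp, by simp, Or.inr (by simp)⟩
  have hne : Y.Nonempty := by
    rw [← Finset.card_pos]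
    exact lt_of_lt_of_le (Nat.mul_pos h0 h0) hY
  have : Nonempty V := ⟨hne.choose⟩
  by_cases hc : t ≤ (Y.image g).card
  · obtain ⟨D, hD, hDc⟩ := Finset.exists_subset_card_eq hc
    have hch : ∀ c ∈ D, ∃ y ∈ Y, g y = c := fun c hcD => Finset.mem_image.1 (hD hcD)
    choose! h hhY hhg using hch
    refine ⟨D.image h, ?_, ?_, Or.inr ?_⟩
    · intro y hy
      obtain ⟨c, hcD, rfl⟩ := Finset.mem_image.1 hy
      exact hhY c hcD
    · rw [Finset.card_image_of_injOn, hDc]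
      intro a ha b hb hab
      rw [← hhg a ha, ← hhg b hb]
      rw [hab]
    · intro y hy y' hy' hyy
      obtain ⟨a, ha, rfl⟩ := Finset.mem_image.1 (Finset.mem_coe.1 hy)
      obtain ⟨b, hb, rfl⟩ := Finset.mem_image.1 (Finset.mem_coe.1 hy')
      rw [hhg a ha, hhg b hb] at hyy
      rw [hyy]
  · push Not at hc
    obtain ⟨c, hcI, hcard⟩ := Finset.exists_le_card_fiber_of_mul_le_card_of_maps_to
      (s := Y) (t := Y.image g) (f := g) (n := t) (fun y hy => Finset.mem_image_of_mem g hy)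
      (hne.image g) (by
        calc (Y.image g).card * t ≤ t * t := Nat.mul_le_mul_right _ hc.le
          _ ≤ Y.card := hY)
    obtain ⟨Z, hZ, hZc⟩ := Finset.exists_subset_card_eq hcard
    refine ⟨Z, fun y hy => (Finset.mem_filter.1 (hZ hy)).1, hZc, Or.inl ⟨c, fun y hy => ?_⟩⟩
    exact (Finset.mem_filter.1 (hZ hy)).2

theorem rows (n t : ℕ) : ∃ T : ℕ, ∀ (V C ι : Type) (K : Finset ι) (g : ι → V → C)
    (Y : Finset V), K.card = n → T ≤ Y.card →
    ∃ Z ⊆ Y, Z.card = t ∧ ∀ i ∈ K, ((∃ γ, ∀ y ∈ Z, g i y = γ) ∨ Set.InjOn (g i) Z) := by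
  induction n with
  | zero =>
    refine ⟨t, fun V C ι K g Y hK hY => ?_⟩
    obtain ⟨Z, hZ, hZc⟩ := Finset.exists_subset_card_eq hY
    rw [Finset.card_eq_zero] at hK
    subst hK
    exact ⟨Z, hZ, hZc, by simp⟩
  | succ n ih =>
    obtain ⟨T, hT⟩ := ih
    refine ⟨T * T, fun V C ι K g Y hK hY => ?_⟩
    obtain ⟨i, K', hi, rfl, hK'⟩ := Finset.card_eq_succ.1 hK
    obtain ⟨Z1, hZ1, hZ1c, hZ1g⟩ := one_var T (g i) Y hY
    obtain ⟨Z, hZ, hZc, hZg⟩ := hT V C ι K' g Z1 hK' hZ1c.ge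
    refine ⟨Z, hZ.trans hZ1, hZc, fun j hj => ?_⟩
    rcases Finset.mem_insert.1 hj with rfl | hj
    · rcases hZ1g with ⟨γ, hγ⟩ | hinj
      · exact Or.inl ⟨γ, fun y hy => hγ y (hZ hy)⟩
      · exact Or.inr (hinj.mono (by exact_mod_cast hZ))
    · exact hZg j hj

theorem indep {V : Type} (R : V → V → Prop) (hsymm : ∀ a b, R a b → R b a) (d s : ℕ) :
    ∀ (Z : Finset V), (∀ y ∈ Z, (Z.filter fun y' => R y y').card ≤ d) →
      (d + 1) * s ≤ Z.card →
    ∃ Z' ⊆ Z, Z'.card = s ∧ ∀ y ∈ Z', ∀ y' ∈ Z', y ≠ y' → ¬ R y y' := by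
  induction s with
  | zero =>
    intro Z _ _
    exact ⟨∅, by simp, by simp, by simp⟩
  | succ s ih =>
    intro Z hdeg hcard
    have hne : Z.Nonempty := by
      rw [← Finset.card_pos]
      refine lt_of_lt_of_le ?_ hcard
      positivity
    obtain ⟨y0, hy0⟩ := hne
    have hsub : (Z.filter fun y' => R y0 y').card ≤ d := hdeg y0 hy0
    let Z1 := (Z.filter fun y' => ¬ R y0 y').erase y0
    have hZ1 : Z1 ⊆ Z := fun y hy => (Finset.mem_filter.1 (Finset.mem_of_mem_erase hy)).1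
    have hc1 : (d + 1) * s ≤ Z1.card := by
      have h1 := Finset.card_filter_add_card_filter_not (s := Z) (fun y' => R y0 y')
      have h2 : (Z.filter fun y' => ¬ R y0 y').card - 1 ≤ Z1.card :=
        Finset.pred_card_le_card_erase
      have h3 : (d + 1) * (s + 1) = (d + 1) * s + (d + 1) := by ring
      omega
    obtain ⟨Z', hZ', hc', hR'⟩ := ih Z1 (fun y hy => by
      refine le_trans (Finset.card_le_card ?_) (hdeg y (hZ1 hy))
      exact Finset.filter_subset_filter _ hZ1) hc1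
    have hy0' : y0 ∉ Z' := fun h => (Finset.mem_erase.1 (hZ' h)).1 rfl
    refine ⟨insert y0 Z', ?_, ?_, ?_⟩
    · intro y hy
      rcases Finset.mem_insert.1 hy with rfl | hy
      · exact hy0
      · exact hZ1 (hZ' hy)
    · rw [Finset.card_insert_of_notMem hy0', hc']
    · intro y hy y' hy' hne
      have key : ∀ z ∈ Z', ¬ R y0 z := fun z hz =>
        (Finset.mem_filter.1 (Finset.mem_of_mem_erase (hZ' hz))).2
      rcases Finset.mem_insert.1 hy with h1 | h1
      · rcases Finset.mem_insert.1 hy' with h2 | h2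
        · exact absurd (h1.trans h2.symm) hne
        · rw [h1]; exact key _ h2
      · rcases Finset.mem_insert.1 hy' with h2 | h2
        · rw [h2]; exact fun h => key _ h1 (hsymm _ _ h)
        · exact hR' y h1 y' h2 hne

end CRBR

open CRBR in
theorem canon (t : ℕ) : ∃ T : ℕ, ∀ (V C : Type) (f : V → V → C) (Y Y' : Finset V),
    T ≤ Y.card → T ≤ Y'.card →
    ∃ Z ⊆ Y, ∃ Z' ⊆ Y', Z.card = t ∧ Z'.card = t ∧ Canon f Z Z' := by
  rcases Nat.eq_zero_or_pos t with h0 | h0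
  · subst h0
    exact ⟨0, fun V C f Y Y' _ _ => ⟨∅, by simp, ∅, by simp, by simp, by simp,
      Or.inr (Or.inr (Or.inr (by simp)))⟩⟩
  let q := t * t
  let s2 := 2 ^ (q * q) * t
  let s1 := (q * q + 1) * s2
  obtain ⟨T, hT⟩ := rows (2 * q) s1
  refine ⟨max (2 * q) T, fun V C f Y Y' hY hY' => ?_⟩
  obtain ⟨Y0, hY0, hY0c⟩ := Finset.exists_subset_card_eq ((le_max_left _ _).trans hY)
  obtain ⟨Z1, hZ1, hZ1c, hZ1g⟩ := hT V C V Y0 f Y' hY0c ((le_max_right _ _).trans hY')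
  -- rows that are constant / injective
  have hs1t : t ≤ s1 := by
    have h1 : 1 ≤ 2 ^ (q * q) := Nat.one_le_two_pow
    have h2 : t ≤ s2 := by
      calc t = 1 * t := (one_mul t).symm
        _ ≤ 2 ^ (q * q) * t := Nat.mul_le_mul_right _ h1
    calc t ≤ s2 := h2
      _ = 1 * s2 := (one_mul _).symm
      _ ≤ (q * q + 1) * s2 := Nat.mul_le_mul_right _ (by omega)
  have hsplit := Finset.card_filter_add_card_filter_not (s := Y0)
    (fun i => ∃ γ, ∀ y ∈ Z1, f i y = γ)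
  by_cases hA : q ≤ (Y0.filter fun i => ∃ γ, ∀ y ∈ Z1, f i y = γ).card
  · obtain ⟨Y1, hY1, hY1c⟩ := Finset.exists_subset_card_eq hA
    have hrow : ∀ i ∈ Y1, ∃ γ, ∀ y ∈ Z1, f i y = γ := fun i hi => (Finset.mem_filter.1 (hY1 hi)).2
    have hY1Y : Y1 ⊆ Y := fun i hi => hY0 (Finset.mem_filter.1 (hY1 hi)).1
    obtain ⟨Z', hZ', hZ'c⟩ := Finset.exists_subset_card_eq (hs1t.trans hZ1c.ge)
    have hne : Z'.Nonempty := by rw [← Finset.card_pos, hZ'c]; exact h0
    obtain ⟨y0, hy0⟩ := hne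
    obtain ⟨Z, hZ, hZc, hZg⟩ := one_var t (fun i => f i y0) Y1 hY1c.ge
    have hf : ∀ i ∈ Z, ∀ y ∈ Z', f i y = f i y0 := by
      intro i hi y hy
      obtain ⟨γ, hγ⟩ := hrow i (hZ hi)
      rw [hγ y (hZ' hy), hγ y0 (hZ' hy0)]
    refine ⟨Z, hZ.trans hY1Y, Z', hZ'.trans hZ1, hZc, hZ'c, ?_⟩
    rcases hZg with ⟨γ, hγ⟩ | hinj
    · exact Or.inl ⟨γ, fun i hi y hy => by rw [hf i hi y hy]; exact hγ i hi⟩
    · exact Or.inr (Or.inl ⟨fun i => f i y0, hinj, fun i hi y hy => hf i hi y hy⟩)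
  · push Not at hA
    have hB : q ≤ (Y0.filter fun i => ¬ ∃ γ, ∀ y ∈ Z1, f i y = γ).card := by omega
    obtain ⟨Y1, hY1, hY1c⟩ := Finset.exists_subset_card_eq hB
    have hY1Y : Y1 ⊆ Y := fun i hi => hY0 (Finset.mem_filter.1 (hY1 hi)).1
    have hrow : ∀ i ∈ Y1, Set.InjOn (f i) Z1 := by
      intro i hi
      have h1 := Finset.mem_filter.1 (hY1 hi)
      exact (hZ1g i h1.1).resolve_left h1.2
    -- step 4
    obtain ⟨R, hR⟩ : ∃ R : V → V → Prop, ∀ y y', R y y' ↔ ∃ x ∈ Y1, ∃ x' ∈ Y1, f x y = f x' y' :=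
      ⟨_, fun _ _ => Iff.rfl⟩
    obtain ⟨Z2, hZ2, hZ2c, hZ2g⟩ := indep R
      (fun a b hab => by
        obtain ⟨x, hx, x', hx', h⟩ := (hR _ _).1 hab
        exact (hR _ _).2 ⟨x', hx', x, hx, h.symm⟩) (q * q) s2 Z1 (by
        intro y hy
        have hsub : (Z1.filter fun y' => R y y') ⊆
            (Y1 ×ˢ Y1).biUnion fun xx => Z1.filter fun y' => f xx.1 y = f xx.2 y' := by
          intro y' hy'
          obtain ⟨h1, h2⟩ := Finset.mem_filter.1 hy'
          obtain ⟨x, hx, x', hx', h⟩ := (hR _ _).1 h2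
          exact Finset.mem_biUnion.2 ⟨(x, x'), Finset.mem_product.2 ⟨hx, hx'⟩,
            Finset.mem_filter.2 ⟨h1, h⟩⟩
        refine (Finset.card_le_card hsub).trans ?_
        refine (Finset.card_biUnion_le_card_mul _ _ 1 ?_).trans ?_
        · intro xx hxx
          rw [Finset.card_le_one]
          intro a ha b hb
          have ha' := Finset.mem_filter.1 ha
          have hb' := Finset.mem_filter.1 hb
          exact hrow xx.2 (Finset.mem_product.1 hxx).2 (Finset.mem_coe.2 ha'.1)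
            (Finset.mem_coe.2 hb'.1) (ha'.2.symm.trans hb'.2)
        · rw [Finset.card_product, hY1c, mul_one]) hZ1c.ge
    -- step 5: patterns
    obtain ⟨P, hP, hPc⟩ := Finset.exists_le_card_fiber_of_mul_le_card_of_maps_to
      (s := Z2) (t := (Y1 ×ˢ Y1).powerset)
      (f := fun y => (Y1 ×ˢ Y1).filter fun xx => f xx.1 y = f xx.2 y) (n := t)
      (fun y _ => Finset.mem_powerset.2 (Finset.filter_subset _ _))
      ⟨∅, Finset.empty_mem_powerset _⟩ (by
        rw [Finset.card_powerset, Finset.card_product, hY1c, hZ2c])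
    obtain ⟨Z', hZ', hZ'c⟩ := Finset.exists_subset_card_eq hPc
    have hZ'2 : Z' ⊆ Z2 := fun y hy => (Finset.mem_filter.1 (hZ' hy)).1
    have hpat : ∀ y ∈ Z', ∀ y' ∈ Z', ∀ x ∈ Y1, ∀ x' ∈ Y1, f x y = f x' y → f x y' = f x' y' := by
      intro y hy y' hy' x hx x' hx' h
      have h1 : ((Y1 ×ˢ Y1).filter fun xx => f xx.1 y = f xx.2 y) = P :=
        (Finset.mem_filter.1 (hZ' hy)).2
      have h2 : ((Y1 ×ˢ Y1).filter fun xx => f xx.1 y' = f xx.2 y') = P :=
        (Finset.mem_filter.1 (hZ' hy')).2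
      have h3 : (x, x') ∈ (Y1 ×ˢ Y1).filter fun xx => f xx.1 y = f xx.2 y :=
        Finset.mem_filter.2 ⟨Finset.mem_product.2 ⟨hx, hx'⟩, h⟩
      rw [h1, ← h2] at h3
      exact (Finset.mem_filter.1 h3).2
    have hne : Z'.Nonempty := by rw [← Finset.card_pos, hZ'c]; exact h0
    obtain ⟨y0, hy0⟩ := hne
    obtain ⟨Z, hZ, hZc, hZg⟩ := one_var t (fun i => f i y0) Y1 hY1c.ge
    refine ⟨Z, hZ.trans hY1Y, Z', (hZ'2.trans hZ2).trans hZ1, hZc, hZ'c, ?_⟩
    rcases hZg with ⟨γ, hγ⟩ | hinj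
    · have hneZ : Z.Nonempty := by rw [← Finset.card_pos, hZc]; exact h0
      obtain ⟨x0, hx0⟩ := hneZ
      refine Or.inr (Or.inr (Or.inl ⟨fun y => f x0 y, ?_, fun x hx y hy => ?_⟩))
      · exact (hrow x0 (hZ hx0)).mono (by exact_mod_cast (hZ'2.trans hZ2))
      · exact hpat y0 hy0 y hy x (hZ hx) x0 (hZ hx0) ((hγ x hx).trans (hγ x0 hx0).symm)
    · refine Or.inr (Or.inr (Or.inr fun y hy y' hy' z hz z' hz' h => ?_))
      have hyz' : y' = z' := by
        by_contra hne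
        exact hZ2g y' (hZ'2 hy') z' (hZ'2 hz') hne ((hR _ _).2 ⟨y, hZ hy, z, hZ hz, h⟩)
      subst hyz'
      refine ⟨?_, rfl⟩
      exact hinj hy hz (hpat y' hy' y0 hy0 y (hZ hy) z (hZ hz) h)

namespace CRBR

theorem canon_mono {V C : Type} (f : V → V → C) {Z Z' Z1 Z1' : Finset V} (h : Canon f Z Z')
    (h1 : Z1 ⊆ Z) (h1' : Z1' ⊆ Z') : Canon f Z1 Z1' := by
  rcases h with ⟨γ, h⟩ | ⟨g, hg, h⟩ | ⟨g, hg, h⟩ | h
  · exact Or.inl ⟨γ, fun y hy y' hy' => h y (h1 hy) y' (h1' hy')⟩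
  · exact Or.inr (Or.inl ⟨g, hg.mono (by exact_mod_cast h1),
      fun y hy y' hy' => h y (h1 hy) y' (h1' hy')⟩)
  · exact Or.inr (Or.inr (Or.inl ⟨g, hg.mono (by exact_mod_cast h1'),
      fun y hy y' hy' => h y (h1 hy) y' (h1' hy')⟩))
  · exact Or.inr (Or.inr (Or.inr fun y hy y' hy' z hz z' hz' he =>
      h y (h1 hy) y' (h1' hy') z (h1 hz) z' (h1' hz') he))

end CRBR

open CRBR in
theorem box_canon (k m t : ℕ) : ∃ T : ℕ, ∀ (V C ι : Type) (K : Finset ι), K.card ≤ m →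
    ∀ (Y : Fin k → Finset V), (∀ l, T ≤ (Y l).card) →
    ∀ (f : ι → V → V → C) (p q : ι → Fin k), (∀ j ∈ K, p j ≠ q j) →
    ∃ Z : Fin k → Finset V, (∀ l, Z l ⊆ Y l) ∧ (∀ l, (Z l).card = t) ∧
      ∀ j ∈ K, Canon (f j) (Z (p j)) (Z (q j)) := by
  induction m with
  | zero =>
    refine ⟨t, fun V C ι K hK Y hY f p q hpq => ?_⟩
    have h : ∀ l, ∃ Z ⊆ Y l, Z.card = t := fun l => Finset.exists_subset_card_eq (hY l)
    choose Z hZ hZc using h
    have hK0 : K = ∅ := Finset.card_eq_zero.1 (Nat.le_zero.1 hK)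
    subst hK0
    exact ⟨Z, hZ, hZc, by simp⟩
  | succ m ih =>
    obtain ⟨T, hT⟩ := ih
    obtain ⟨T', hT'⟩ := canon T
    refine ⟨max T T', fun V C ι K hK Y hY f p q hpq => ?_⟩
    by_cases hKm : K.card ≤ m
    · exact hT V C ι K hKm Y (fun l => (le_max_left _ _).trans (hY l)) f p q hpq
    · have hKc : K.card = m + 1 := by omega
      obtain ⟨j, K', hj, rfl, hK'⟩ := Finset.card_eq_succ.1 hKc
      have hjne : p j ≠ q j := hpq j (Finset.mem_insert_self _ _)
      obtain ⟨Z1, hZ1, Z2, hZ2, hZ1c, hZ2c, hcan⟩ := hT' V C (f j) (Y (p j)) (Y (q j))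
        ((le_max_right _ _).trans (hY _)) ((le_max_right _ _).trans (hY _))
      let Y' : Fin k → Finset V := fun l => if l = p j then Z1 else if l = q j then Z2 else Y l
      have hY'Y : ∀ l, Y' l ⊆ Y l := by
        intro l
        simp only [Y']
        split_ifs with h1 h2
        · rw [h1]; exact hZ1
        · rw [h2]; exact hZ2
        · exact Finset.Subset.refl _
      have hY'c : ∀ l, T ≤ (Y' l).card := by
        intro l
        simp only [Y']
        split_ifs with h1 h2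
        · exact hZ1c.ge
        · exact hZ2c.ge
        · exact (le_max_left _ _).trans (hY l)
      obtain ⟨Z, hZ, hZc, hZg⟩ := hT V C ι K' hK'.le Y' hY'c f p q
        (fun i hi => hpq i (Finset.mem_insert_of_mem hi))
      refine ⟨Z, fun l => (hZ l).trans (hY'Y l), hZc, fun i hi => ?_⟩
      rcases Finset.mem_insert.1 hi with rfl | hi
      · refine canon_mono (f i) hcan ?_ ?_
        · have := hZ (p i)
          simpa [Y'] using this
        · have := hZ (q i)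
          have hne' : ¬ (q i = p i) := fun h => hjne h.symm
          simpa [Y', hne'] using this
      · exact hZg i hi

end

end EX
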